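import Pool.Agent.Results.MP_78d38b_nt.TowersEveryCurve
import Pool.Agent.U80.PT.Root

/-!
# The parity conjecture over all the number fields of infinite towers, for every elliptic curve with a point of
# order two and minimal Selmer groups and an exact proportion of its twists

Let `E : y² = x³ + a x² + b x` with integers `a`, `b` such that `b` and `a² - 4b` are not squares, and let
`E_D : y² = x³ + a D x² + b D² x` be its quadratic twist, `D` squarefree and prime to `2 b (a² - 4b)`. Let
`s(E_D) ≥ 0` be the Selmer rank of the descent via the isogeny of degree two. Let `K_∞(D)` be the field generated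
by the square roots of the tower primes: the primes `q ≡ 1 mod 8` not dividing `D` such that `b` and `a² - 4b` are
not squares modulo `q`, and `q` is a square modulo the odd primes dividing `b(a² - 4b)` that are not neutral
and modulo the prime factors `p` of `D` with `b` or `a² - 4b` a square modulo `p` (see
`MP_78d38b_nt/TowersEveryCurve`; the field `K_∞(D)` has infinite degree if there are neutral primes).

* For ALL the number fields `K` of degree at least four contained in `K_∞(D)` the root number
  `w(E_D/K) = ∏_v w(E_D/K_v)` is `1`.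
* If `s(E_D) = 0`, then the parity conjecture `(-1) ^ rk E_D(K) = w(E_D/K)` is true, unconditionally, for ALL
  these fields: `E_D(K)` is finite and the root number is `1`.
* If `s(E) = 0`, this is so for at least the proportion `∏_{i ≥ 0} (1 - 2^{-(2i+1)}) = 0.4194...` of the `D` of
  the class (the squarefree `D ≡ 1 mod 8` that are nonzero squares modulo the odd primes dividing
  `b(a² - 4b)`, with split and inert prime factors). The curve `y² = x³ + 7 x² + 7 x` is an example.

The local root numbers `w(E / K_v)` are signs; they are `1` if `E` has good reduction at `v` and `-1` if `E` has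
split multiplicative reduction at `v`; and since `E` is defined over `ℚ` they are the same for conjugate
primes, for which the completions are isomorphic. These properties are all that we use, that is, we prove the
equality for every function `w` with these properties (definitions of helper922, as in
`MP_02f36d_nt/ParityOverTwoExtensions`).

The proof. (1) `E_D(K)` is finite: this is the theorem of `MP_78d38b_nt/TowersEveryCurve`. (2) In the product of
the local root numbers only the primes of `K` matter that are stable under the Galois group (helper385). A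
prime over a ramified prime number `q` has good reduction. For the other prime numbers `p` one of three
different quadratic fields contained in `K` has the property that `p` splits in it, so there is no stable prime
over `p` (`U80/PT/Fix`, `Root`). The number of the infinite places is even (helper897).
-/

set_option autoImplicit false

open scoped Classical

open WeierstrassCurve NumberField IsDedekindDomain

namespace Pool.Agent.Results.MP_02f36d_nt.InfiniteTowersTwoIsogeny

open Pool.Agent.N922.PX (LocalRootNumbers rootNumber)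
open Pool.Agent.Results.MP_78d38b_nt.TowersEveryCurve (curve rank s Twist TowerPrime Tower HasNeutral
  Class Numbers cc)

/-- the parity conjecture holds for `E_D` over `K`, with `E_D(K)` finite and root number `1`: for every system
of local root numbers (such systems exist, and only finitely many of the numbers are not `1`)
`(-1) ^ rank = w(E_D / K)` -/
structure ParityHolds (a b : ℤ) (D : ℕ) (K : Type) [Field K] [NumberField K] : Prop where
  finite : Finite (curve a b D K).toAffine.Point
  exist : ∃ w, LocalRootNumbers K (curve a b D ℚ) w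
  almost : ∀ w, LocalRootNumbers K (curve a b D ℚ) w → {v | w v ≠ 1}.Finite
  one : ∀ w, LocalRootNumbers K (curve a b D ℚ) w → rootNumber K w = 1
  parity : ∀ w, LocalRootNumbers K (curve a b D ℚ) w → (-1) ^ rank a b D K = rootNumber K w

/-- the parity conjecture for `E_D` over all the number fields of degree at least four in the tower -/
def AllFields (a b : ℤ) (D : ℕ) : Prop :=
  ∀ K : IntermediateField ℚ ℂ, K ≤ Tower a b D → FiniteDimensional ℚ K →
    ∃ _ : NumberField K, 4 ≤ Module.finrank ℚ K → ParityHolds a b D K

section proof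

open Pool.Agent.U80.PT
open Pool.Agent.U80.GT (TP Dn sub_TF)

theorem root_of {a b : ℤ} (hb : b ≠ 0) (hc : a ^ 2 - 4 * b ≠ 0) {D : ℕ} (hD : Twist a b D)
    (K : IntermediateField ℚ ℂ) [NumberField K] (hK : K ≤ Tower a b D)
    (h4 : 4 ≤ Module.finrank ℚ K) {w : HeightOneSpectrum (𝓞 K) → ℤ}
    (hw : LocalRootNumbers K (curve a b D ℚ) w) :
    {v | w v ≠ 1}.Finite ∧ rootNumber K w = 1 := by
  obtain ⟨P, hP1, hP2⟩ := sub_TF (a := a) (b := b) (D := D) K hK
  have hD0 : (D : ℤ) ≠ 0 := by exact_mod_cast hD.1.ne_zero
  have e : 16 * (b * (D : ℤ) ^ 2) ^ 2 * ((a * D) ^ 2 - 4 * (b * (D : ℤ) ^ 2)) =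
      16 * b ^ 2 * (a ^ 2 - 4 * b) * (D : ℤ) ^ 6 := by ring
  refine root_one (P := P) (fun q hq => ⟨(hP1 q hq).1, (hP1 q hq).2.1⟩) K hP2 h4
    (A := a * D) (B := b * (D : ℤ) ^ 2) ?_ (fun q hq h => ?_) hw
  · rw [e]
    exact mul_ne_zero (mul_ne_zero (mul_ne_zero (by norm_num) (pow_ne_zero _ hb)) hc)
      (pow_ne_zero _ hD0)
  · obtain ⟨h1, h2, h3, h5, h6, -⟩ := hP1 q hq
    rw [e] at h
    have hp : Prime (q : ℤ) := Nat.prime_iff_prime_int.1 h1
    haveI : Fact q.Prime := ⟨h1⟩
    rcases hp.dvd_or_dvd h with h | h
    · rcases hp.dvd_or_dvd h with h | h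
      · rcases hp.dvd_or_dvd h with h | h
        · have h7 : q ∣ 2 ^ 4 := by
            have : q ∣ 16 := by exact_mod_cast h
            norm_num
            exact this
          have h8 := (Nat.prime_dvd_prime_iff_eq h1 Nat.prime_two).1 (h1.dvd_of_dvd_pow h7)
          omega
        · have h7 := hp.dvd_of_dvd_pow h
          rw [← ZMod.intCast_zmod_eq_zero_iff_dvd] at h7
          exact h5 (by rw [h7]; exact IsSquare.zero)
      · rw [← ZMod.intCast_zmod_eq_zero_iff_dvd] at h
        exact h6 (by rw [h]; exact IsSquare.zero)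
    · have h7 := hp.dvd_of_dvd_pow h
      exact h3 (by exact_mod_cast h7)

theorem parity_of {a b : ℤ} (nb : ¬ IsSquare b) (nc : ¬ IsSquare (a ^ 2 - 4 * b)) {D : ℕ}
    (hD : Twist a b D) (h0 : s a b D = 0) : AllFields a b D := by
  have hb0 : b ≠ 0 := by
    rintro rfl
    exact nb ⟨0, by norm_num⟩
  have hc0 : a ^ 2 - 4 * b ≠ 0 := by
    intro h
    exact nc ⟨0, by rw [h]; norm_num⟩
  intro K hK hfd
  obtain ⟨hN, h2, h1⟩ :=
    (Pool.Agent.Results.MP_78d38b_nt.TowersEveryCurve.result.1 a b nb nc).1 D hD K hK hfd
  obtain ⟨-, h3, -⟩ := h1 h0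
  refine ⟨hN, fun h4 => ?_⟩
  have hr : rank a b D K = 0 := by
    have h5 := h2 0 fun m => ⟨0, Function.injective_of_subsingleton _⟩
    rw [h0, mul_zero] at h5
    push_cast at h5
    omega
  refine ⟨h3, Pool.Agent.N922.PX.exists_local K _, fun w hw => (root_of hb0 hc0 hD K hK h4 hw).1,
    fun w hw => (root_of hb0 hc0 hD K hK h4 hw).2, fun w hw => ?_⟩
  rw [hr, pow_zero, (root_of hb0 hc0 hD K hK h4 hw).2]

end proof

/-- **Theorem.** -/
theorem result :
    (∀ a b : ℤ, ¬ IsSquare b → ¬ IsSquare (a ^ 2 - 4 * b) →
      (∀ D : ℕ, Twist a b D → ∀ K : IntermediateField ℚ ℂ, K ≤ Tower a b D →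
        FiniteDimensional ℚ K → ∃ _ : NumberField K, 4 ≤ Module.finrank ℚ K →
          ∀ w, LocalRootNumbers K (curve a b D ℚ) w → rootNumber K w = 1) ∧
      (∀ D : ℕ, Twist a b D → s a b D = 0 → AllFields a b D) ∧
      (HasNeutral a b → ∀ D : ℕ, Twist a b D →
        {q : ℕ | TowerPrime a b D q}.Infinite ∧ ¬ FiniteDimensional ℚ (Tower a b D)) ∧
      (∀ D : ℕ, Class a b D → Twist a b D) ∧
      (s a b 1 = 0 → ∀ x : ℝ, x < cc → ∀ᶠ X : ℕ in Filter.atTop,
        x * ((Numbers a b (fun _ => True) X).card : ℝ) ≤
          ((Numbers a b (AllFields a b) X).card : ℝ))) ∧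
    0.4194 < cc ∧ cc < 0.4195 ∧ s 7 7 1 = 0 ∧ HasNeutral 7 7 := by
  obtain ⟨hall, h1, h2, h3, h4⟩ := Pool.Agent.Results.MP_78d38b_nt.TowersEveryCurve.result
  refine ⟨fun a b nb nc => ?_, h1, h2, h3, h4⟩
  have hb0 : b ≠ 0 := by
    rintro rfl
    exact nb ⟨0, by norm_num⟩
  have hc0 : a ^ 2 - 4 * b ≠ 0 := by
    intro h
    exact nc ⟨0, by rw [h]; norm_num⟩
  obtain ⟨-, g2, g3, g4⟩ := hall a b nb nc
  refine ⟨fun D hD K hK hfd => ?_, fun D hD h0 => parity_of nb nc hD h0, g2,
    fun D hD => (g3 D hD).1, fun hs x hx => ?_⟩
  · have hN : NumberField K := { to_charZero := inferInstance, to_finiteDimensional := hfd }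
    exact ⟨hN, fun h4 w hw => (root_of hb0 hc0 hD K hK h4 hw).2⟩
  · filter_upwards [g4.eventually_const_lt hx] with X hX
    have hle : ((Numbers a b (fun D => s a b D = s a b 1) X).card : ℝ) ≤
        ((Numbers a b (AllFields a b) X).card : ℝ) := by
      refine Nat.cast_le.2 (Finset.card_le_card fun D hD => ?_)
      rw [Pool.Agent.Results.MP_78d38b_nt.TowersEveryCurve.mem_num] at hD ⊢
      exact ⟨hD.1, hD.2.1, parity_of nb nc (g3 D hD.2.1).1 (hD.2.2.trans hs)⟩
    rcases Nat.eq_zero_or_pos (Numbers a b (fun _ => True) X).card with h | h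
    · rw [h, Nat.cast_zero, mul_zero]
      exact Nat.cast_nonneg _
    · have h5 : (0 : ℝ) < ((Numbers a b (fun _ => True) X).card : ℝ) := by exact_mod_cast h
      exact ((lt_div_iff₀ h5).1 hX).le.trans hle

end Pool.Agent.Results.MP_02f36d_nt.InfiniteTowersTwoIsogeny
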