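import Pool.Agent.U687.PL.Rt

/-!
# The parity conjecture for `E_D` over all the fields in multiquadratic fields, for a positive proportion of the
# twists with `K` prime factors, over EVERY base, ordered by size

`E_D : y² = x³ - 35 D² x - 98 D³` is the quadratic twist by `D` of `X_0(49)`. Let `P` be ANY finite set of primes
`1` modulo `4`, and let `m` run, in the natural order, through ALL the squarefree numbers with exactly `K`
prime factors, all `1` modulo `4` and not in `P`. Put `N = K (#P + 2) + (K choose 2)`.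

For a set `Q` of primes let `Conclusion D Q` be the following statement: for ALL the number fields `k` in
`ℚ(√q : q ∈ Q)` the group `E_D(k)` is finite, `[k : ℚ]` kills the elements of order a power of two in
`Ш(E_D/k)`, and, if `[k : ℚ] ≥ 4` and if the primes in `Q` are `1` modulo `8` and do not divide `D`, the parity
conjecture holds for `E_D` over `k`: `(-1) ^ rk E_D(k) = w(E_D/k)`, where `w(E_D/k)` is the product of the local
root numbers.

* FIXED BASE. For every `P` and every `K ≥ #P + 2` the proportion of the `m` such that `E_{md}(ℚ)` is finite and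
  `Ш(E_{md}/ℚ)` has no element of order two for all the products `d` of primes in `P` has a limit, which is
  POSITIVE and of the form `j / 2 ^ N`; for these `m` and all these `d` and all `Q ⊆ P` we have
  `Conclusion (m d) Q`.
* THE BASE AND THE PRIMES OF `m` TOGETHER. If `P` is such that `E_d(ℚ)` is finite and `Ш(E_d/ℚ)[2] = 0` for all
  the products `d` of primes in `P`, then for every `K ≥ 1` the proportion of the `m` with the same property for
  all the divisors `d` of `m ∏_P p` has a limit, POSITIVE and of the form `j / 2 ^ N`, and for these `m` we have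
  `Conclusion d Q` for all the divisors `d` of `m ∏_P p` and all the sets `Q` of primes dividing it. (If `P` is
  not such, the property fails for all `m`.)

The local root numbers `w(E / k_v)` are signs; they are `1` if `E` has good reduction at `v` and `-1` if `E` has
split multiplicative reduction at `v`; and since `E` is defined over `ℚ` they are the same for conjugate
primes. These properties are all that we use, that is, we prove the equality for every function `w` with
these properties, and such functions exist (definitions of helper922, `N922/PX`).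

The criterion for one twist is that of the starting file `MP_4a9ea6_nt.TwoPartTwistsX49`, the passage to the
fields is helper80's (`U80/MQ`), the computation of the root number that of helper922 and helper80 (`N922/PX`,
`U80/PT`), the existence of one `m` in the first point helper239's and helper33's (`U239/CT`, `U974/BS`). New: the
positive proportions by size with a fixed number of prime factors, over every base (`U687/PL`, `U687/NO`:
joint law of all the symbols, bilinear sums).
-/

set_option autoImplicit false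

open scoped Classical

open WeierstrassCurve NumberField IsDedekindDomain

namespace Pool.Agent.Results.MP_02f36d_nt.ParityOverEveryBase

open Filter Topology
open Pool.Agent.TH841.NF.D (Sha)
open Pool.Agent.N922.PX (LocalRootNumbers rootNumber)

/-- the coefficient of `x` -/
def A (D : ℕ) : ℤ := -35 * (D : ℤ) ^ 2

/-- the constant coefficient -/
def B (D : ℕ) : ℤ := -98 * (D : ℤ) ^ 3

/-- the curve `y² = x³ - 35 D² x - 98 D³` over `K` -/
def curve (D : ℕ) (K : Type) [Field K] : WeierstrassCurve K :=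
  { a₁ := 0, a₂ := 0, a₃ := 0, a₄ := ((A D : ℤ) : K), a₆ := ((B D : ℤ) : K) }

/-- `E_D(ℚ)` is finite and `Ш(E_D/ℚ)` has no element of order two -/
def TrivialTwo (D : ℕ) : Prop :=
  Finite (curve D ℚ).toAffine.Point ∧ ∀ x : Sha (curve D ℚ), 2 • x = 0 → x = 0

/-- `E_D(K)` is finite, and the elements of `Ш(E_D/K)` of order a power of two are killed by `[K : ℚ]` -/
def TrivialOver (D : ℕ) (K : Type) [Field K] [NumberField K] : Prop :=
  Finite (curve D K).toAffine.Point ∧ Module.finrank ℤ (curve D K).toAffine.Point = 0 ∧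
    ∀ (k : ℕ) (x : Sha (curve D K)), 2 ^ k • x = 0 → Module.finrank ℚ K • x = 0

/-- the parity conjecture for `E_D` over `K`, for every system of local root numbers, of which only finitely
many are not `1`; such systems exist -/
def Parity (D : ℕ) (K : Type) [Field K] [NumberField K] : Prop :=
  (∃ w, LocalRootNumbers K (curve D ℚ) w) ∧ ∀ w, LocalRootNumbers K (curve D ℚ) w →
    {v | w v ≠ 1}.Finite ∧ (-1) ^ Module.finrank ℤ (curve D K).toAffine.Point = rootNumber K w

/-- the field generated by the square roots of the primes in `Q` -/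
noncomputable def Roots (Q : Finset ℕ) : IntermediateField ℚ ℂ :=
  IntermediateField.adjoin ℚ {z : ℂ | ∃ q ∈ Q, z ^ 2 = (q : ℂ)}

/-- over all the number fields in `Roots Q`: trivial, and the parity conjecture if the degree is at least four
and the primes in `Q` are `1` modulo `8` and do not divide `D` -/
def Conclusion (D : ℕ) (Q : Finset ℕ) : Prop :=
  ∀ k : IntermediateField ℚ ℂ, k ≤ Roots Q → ∃ _ : NumberField k, TrivialOver D k ∧
    (4 ≤ Module.finrank ℚ k → (∀ q ∈ Q, q % 8 = 1 ∧ ¬ q ∣ D) → Parity D k)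

/-- squarefree, exactly `K` prime factors, all `1` modulo `4` and not in `P` -/
def Multiplier (K : ℕ) (P : Finset ℕ) (m : ℕ) : Prop :=
  Squarefree m ∧ m.primeFactors.card = K ∧ ∀ p ∈ m.primeFactors, p % 4 = 1 ∧ p ∉ P

/-- those up to `X` -/
noncomputable def multipliers (K : ℕ) (P : Finset ℕ) (X : ℕ) : Finset ℕ :=
  (Finset.Icc 1 X).filter fun m => Multiplier K P m

/-- the share of those with the property `Q` -/
noncomputable def proportion (K : ℕ) (P : Finset ℕ) (Q : ℕ → Prop) (X : ℕ) : ℝ :=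
  (((multipliers K P X).filter Q).card : ℝ) / ((multipliers K P X).card : ℝ)

/-- the proportion has a limit, which is positive and of the form `j / 2 ^ N` -/
def Positive (K : ℕ) (P : Finset ℕ) (Q : ℕ → Prop) : Prop :=
  ∃ j : ℕ, 0 < j ∧
    Tendsto (proportion K P Q) atTop (𝓝 ((j : ℝ) / 2 ^ (K * (P.card + 2) + K.choose 2)))

section proof

open Pool.Agent.U687.PL Pool.Agent.U687.NO
open Pool.Agent.U120.MF (P4 TT)
open Pool.Agent.U80.MQ (Om)
open Pool.Agent.Results.MP_4a9ea6_nt.TwoPartTwistsX49 (mat Adm)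
open scoped symmDiff

theorem crit (D : ℕ) (h : Adm D) : TrivialTwo D ↔ (mat D).det ≠ 0 :=
  Pool.Agent.R413.SQ.Cor.crit h

/-- finite generation -/
theorem fin_dim {P : Finset ℕ} (hP : ∀ p ∈ P, p ≠ 0) (k : IntermediateField ℚ ℂ)
    (hk : k ≤ Roots P) : FiniteDimensional ℚ k := by
  have h1 : FiniteDimensional ℚ (Om P) := (Pool.Agent.U80.MQ.R7_Om P hP).1
  have h2 : k ≤ Om P := hk
  exact FiniteDimensional.of_injective (IntermediateField.inclusion h2).toLinearMap
    (IntermediateField.inclusion h2).injective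

theorem over_of {D : ℕ} {K : Type} [Field K] [NumberField K]
    (hfin : Finite (curve D K).toAffine.Point)
    (h : ∀ (k : ℕ) (x : Sha (curve D K)), 2 ^ k • x = 0 → Module.finrank ℚ K • x = 0) :
    TrivialOver D K := by
  have hrk : Module.finrank ℤ (curve D K).toAffine.Point = 0 := Pool.Agent.U80.MQ.finrank_fin
  exact ⟨hfin, hrk, h⟩

theorem parity_of {D : ℕ} {K : Type} [Field K] [NumberField K]
    (hfin : Finite (curve D K).toAffine.Point)
    (h : ∀ w, LocalRootNumbers K (curve D ℚ) w → {v | w v ≠ 1}.Finite ∧ rootNumber K w = 1) :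
    Parity D K := by
  have hrk : Module.finrank ℤ (curve D K).toAffine.Point = 0 := Pool.Agent.U80.MQ.finrank_fin
  refine ⟨Pool.Agent.N922.PX.exists_local K _, fun w hw => ⟨(h w hw).1, ?_⟩⟩
  rw [(h w hw).2, hrk, pow_zero]

theorem overP {P : Finset ℕ} (hP : ∀ p ∈ P, p.Prime ∧ p % 4 = 1) {D : ℕ} (hD : Adm D)
    (h : ∀ S, S ⊆ P → TrivialTwo (∏ q ∈ D.primeFactors ∆ S, q)) : Conclusion D P := by
  intro k hk
  have hfd := fin_dim (fun p hp => (hP p hp).1.ne_zero) k hk
  have hN : NumberField k := { to_charZero := inferInstance, to_finiteDimensional := hfd }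
  have hU : ∀ q ∈ D.primeFactors, P4 q := fun q hq => ⟨Nat.prime_of_mem_primeFactors hq, hD.2 q hq⟩
  obtain ⟨h5, -, h6⟩ := fieldsP (P := P) (U := D.primeFactors) (fun q hq => hP q hq) hU
    (fun S hS => h S hS) k hk
  rw [Nat.prod_primeFactors_of_squarefree hD.1] at h5 h6
  refine ⟨hN, over_of h5 (fun j x hx => h6 j x hx), fun h4 hq => parity_of h5 fun w hw => ?_⟩
  have hgal := Pool.Agent.U80.PT.gal_K k hk
  have hD0 : (D : ℤ) ≠ 0 := by exact_mod_cast hD.1.ne_zero
  have h7 := root_short (P := P) (fun q hqP => ⟨(hP q hqP).1, (hq q hqP).1⟩) k hk h4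
    (a := A D) (b := B D) (by
      show 2 * (4 * (-35 * (D : ℤ) ^ 2) ^ 3 + 27 * (-98 * (D : ℤ) ^ 3) ^ 2) ≠ 0
      rw [disc_eq]
      exact mul_ne_zero (by norm_num) (pow_ne_zero _ hD0))
    (fun q hqP => not_dvd_disc (hP q hqP).1 (hq q hqP).1 (hq q hqP).2) hw
  exact ⟨h7.1, h7.2⟩

variable {P : Finset ℕ} (hP : ∀ p ∈ P, p.Prime ∧ p % 4 = 1)

include hP in
theorem mult_iff {K m : ℕ} : Multiplier K P m ↔ InM K (∏ p ∈ P, p) m := by
  unfold Multiplier InM
  constructor
  · rintro ⟨h1, h2, h3⟩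
    refine ⟨h1, h2, fun p hp => (h3 p hp).1, Nat.Coprime.symm (Nat.Coprime.prod_left fun p hp => ?_)⟩
    refine ((hP p hp).1.coprime_iff_not_dvd).2 fun h => ?_
    exact (h3 p (Nat.mem_primeFactors.2 ⟨(hP p hp).1, h, h1.ne_zero⟩)).2 hp
  · rintro ⟨h1, h2, h3, h4⟩
    refine ⟨h1, h2, fun p hp => ⟨h3 p hp, fun h => ?_⟩⟩
    have h5 : p ∣ ∏ p ∈ P, p := Finset.dvd_prod_of_mem _ h
    have h6 := Nat.dvd_gcd (Nat.dvd_of_mem_primeFactors hp) h5
    rw [h4] at h6
    exact (Nat.prime_of_mem_primeFactors hp).one_lt.ne' (Nat.dvd_one.1 h6)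

include hP in
theorem mults_eq (K X : ℕ) : multipliers K P X = Ms K (∏ p ∈ P, p) X := by
  ext m
  have h1 : m ∈ multipliers K P X ↔ m ∈ Finset.Icc 1 X ∧ Multiplier K P m := Finset.mem_filter
  rw [h1, mem_Ms, Finset.mem_Icc, mult_iff hP]
  exact Iff.rfl

include hP in
theorem prop_eq (K : ℕ) (Q : ℕ → Prop) (X : ℕ) : proportion K P Q X =
    (∑ m ∈ Ms K (∏ p ∈ P, p) X, (if Q m then (1 : ℝ) else 0)) /
      ((Ms K (∏ p ∈ P, p) X).card : ℝ) := by
  unfold proportion
  rw [mults_eq hP, card_as_sum ((Ms K (∏ p ∈ P, p) X).filter Q), Finset.sum_filter]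

include hP in
theorem pos_fixed {K : ℕ} (hK : P.card + 2 ≤ K) :
    Positive K P fun m => ∀ d, d ∣ ∏ p ∈ P, p → TrivialTwo (m * d) := by
  obtain ⟨e1, e2, e3⟩ := pG_div hP
  have h0 : ∏ p ∈ P, p ≠ 0 := Finset.prod_ne_zero_iff.2 fun p hp => (hP p hp).1.ne_zero
  obtain ⟨j, hj, h⟩ := all_law TrivialTwo crit K _ e3 (by rw [e1]; exact hK)
  refine ⟨j, hj, ?_⟩
  unfold exG at h
  rw [e1, e2] at h
  refine h.congr fun X => ?_
  rw [prop_eq hP]
  refine sum_congr_M fun m _ => ?_
  constructor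
  · intro h1 d hd
    rw [mul_comm]
    exact h1 d (Nat.mem_divisors.2 ⟨hd, h0⟩)
  · intro h1 d hd
    rw [mul_comm]
    exact h1 d (Nat.mem_divisors.1 hd).1

include hP in
theorem pos_moving {K : ℕ} (hK : 1 ≤ K) (hg : ∀ d, d ∣ ∏ p ∈ P, p → TrivialTwo d) :
    Positive K P fun m => ∀ d, d ∣ m * ∏ p ∈ P, p → TrivialTwo d := by
  obtain ⟨e1, e2, e3⟩ := pG_div hP
  have h0 : ∏ p ∈ P, p ≠ 0 := Finset.prod_ne_zero_iff.2 fun p hp => (hP p hp).1.ne_zero
  obtain ⟨j, hj, h⟩ := keep_law TrivialTwo crit K _ e3 hK fun d hd => hg d (Nat.mem_divisors.1 hd).1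
  refine ⟨j, hj, ?_⟩
  unfold exG at h
  rw [e1, e2] at h
  refine h.congr fun X => ?_
  rw [prop_eq hP]
  refine sum_congr_M fun m _ => ?_
  constructor
  · intro h1 d hd
    obtain ⟨a, b, ha, hb, hab⟩ := (Nat.dvd_mul).1 hd
    rw [← hab, mul_comm]
    exact h1 b (Nat.mem_divisors.2 ⟨hb, h0⟩) a ha
  · intro h1 D hD d hd
    rw [mul_comm]
    exact h1 (d * D) (Nat.mul_dvd_mul hd (Nat.mem_divisors.1 hD).1)

include hP in
theorem good_fixed {K m d : ℕ} (hm : Multiplier K P m)
    (h : ∀ d, d ∣ ∏ p ∈ P, p → TrivialTwo (m * d)) (hd : d ∣ ∏ p ∈ P, p) {Q : Finset ℕ}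
    (hQ : Q ⊆ P) : Conclusion (m * d) Q := by
  obtain ⟨e1, e2, e3⟩ := pG_div hP
  have h0 : ∏ p ∈ P, p ≠ 0 := Finset.prod_ne_zero_iff.2 fun p hp => (hP p hp).1.ne_zero
  have hpf : (∏ p ∈ P, p).primeFactors = P := Nat.primeFactors_prod fun p hp => (hP p hp).1
  have hm' := (mult_iff hP).1 hm
  have hc : Nat.Coprime m d := Nat.Coprime.coprime_dvd_right hd hm'.2.2.2
  have hdA : Adm d := e3 d (Nat.mem_divisors.2 ⟨hd, h0⟩)
  have hdP : d.primeFactors ⊆ P := by
    have := Nat.primeFactors_mono hd h0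
    rwa [hpf] at this
  refine overP (fun p hp => hP p (hQ hp)) (adm_mul_cop ⟨hm.1, hm'.2.2.1⟩ hdA hc) fun S hSQ => ?_
  have hS := hSQ.trans hQ
  have h1 : (m * d).primeFactors ∆ S = m.primeFactors ∪ (d.primeFactors ∆ S) := by
    ext q
    have h2 : q ∈ m.primeFactors → q ∉ d.primeFactors ∧ q ∉ S := fun hq =>
      ⟨fun h3 => (hm.2.2 q hq).2 (hdP h3), fun h3 => (hm.2.2 q hq).2 (hS h3)⟩
    rw [Finset.mem_symmDiff, Nat.primeFactors_mul hm.1.ne_zero hdA.1.ne_zero, Finset.mem_union,
      Finset.mem_union, Finset.mem_symmDiff]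
    tauto
  have h2 : Disjoint m.primeFactors (d.primeFactors ∆ S) := by
    rw [Finset.disjoint_left]
    intro q hq h3
    rcases Finset.mem_symmDiff.1 h3 with h4 | h4
    · exact (hm.2.2 q hq).2 (hdP h4.1)
    · exact (hm.2.2 q hq).2 (hS h4.1)
  rw [h1, Finset.prod_union h2, Nat.prod_primeFactors_of_squarefree hm.1]
  refine h _ (Finset.prod_dvd_prod_of_subset _ _ _ fun q hq => ?_)
  rcases Finset.mem_symmDiff.1 hq with h4 | h4
  · exact hdP h4.1
  · exact hS h4.1

include hP in
theorem good_moving {K m d : ℕ} (hm : Multiplier K P m)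
    (h : ∀ d, d ∣ m * ∏ p ∈ P, p → TrivialTwo d) (hd : d ∣ m * ∏ p ∈ P, p) {Q : Finset ℕ}
    (hQ : Q ⊆ P ∪ m.primeFactors) : Conclusion d Q := by
  have h0 : ∏ p ∈ P, p ≠ 0 := Finset.prod_ne_zero_iff.2 fun p hp => (hP p hp).1.ne_zero
  have hpf : (∏ p ∈ P, p).primeFactors = P := Nat.primeFactors_prod fun p hp => (hP p hp).1
  have hm' := (mult_iff hP).1 hm
  have hPA : Adm (∏ p ∈ P, p) := ⟨sq_prod fun p hp => (hP p hp).1, fun p hp => by
    rw [hpf] at hp
    exact (hP p hp).2⟩
  have hA : Adm (m * ∏ p ∈ P, p) := adm_mul_cop ⟨hm.1, hm'.2.2.1⟩ hPA hm'.2.2.2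
  have hpfA : (m * ∏ p ∈ P, p).primeFactors = P ∪ m.primeFactors := by
    rw [Nat.primeFactors_mul hm.1.ne_zero h0, hpf, Finset.union_comm]
  have hdA : Adm d := ⟨hA.1.squarefree_of_dvd hd, fun p hp =>
    hA.2 p (Nat.primeFactors_mono hd hA.1.ne_zero hp)⟩
  have hdP : d.primeFactors ⊆ P ∪ m.primeFactors := by
    rw [← hpfA]
    exact Nat.primeFactors_mono hd hA.1.ne_zero
  refine overP (fun p hp => ?_) hdA fun S hS => ?_
  · rcases Finset.mem_union.1 (hQ hp) with h1 | h1
    · exact hP p h1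
    · exact ⟨Nat.prime_of_mem_primeFactors h1, (hm.2.2 p h1).1⟩
  · refine h _ ?_
    rw [← Nat.prod_primeFactors_of_squarefree hA.1, hpfA]
    refine Finset.prod_dvd_prod_of_subset _ _ _ fun q hq => ?_
    rcases Finset.mem_symmDiff.1 hq with h4 | h4
    · exact hdP h4.1
    · exact hQ (hS h4.1)

end proof

/-- **Theorem.** -/
theorem result (P : Finset ℕ) (hP : ∀ p ∈ P, p.Prime ∧ p % 4 = 1) (K : ℕ) (hK : 1 ≤ K) :
    (∀ m, Multiplier K P m →
      ((∀ d, d ∣ ∏ p ∈ P, p → TrivialTwo (m * d)) →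
        ∀ d, d ∣ ∏ p ∈ P, p → ∀ Q, Q ⊆ P → Conclusion (m * d) Q) ∧
      ((∀ d, d ∣ m * ∏ p ∈ P, p → TrivialTwo d) →
        ∀ d, d ∣ m * ∏ p ∈ P, p → ∀ Q, Q ⊆ P ∪ m.primeFactors → Conclusion d Q)) ∧
    (P.card + 2 ≤ K → Positive K P fun m => ∀ d, d ∣ ∏ p ∈ P, p → TrivialTwo (m * d)) ∧
    ((∀ d, d ∣ ∏ p ∈ P, p → TrivialTwo d) →
      Positive K P fun m => ∀ d, d ∣ m * ∏ p ∈ P, p → TrivialTwo d) :=
  ⟨fun _ hm => ⟨fun h _ hd _ hQ => good_fixed hP hm h hd hQ,
    fun h _ hd _ hQ => good_moving hP hm h hd hQ⟩,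
    fun h => pos_fixed hP h, fun hg => pos_moving hP hK hg⟩

end Pool.Agent.Results.MP_02f36d_nt.ParityOverEveryBase
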