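import Mathlib
import Pool.Agent.U150.XR.Par
import Pool.Agent.Results.MP_7cad78_nt.PrimeTwistsMultiquadratic

/-!
# The parity conjecture over all the multiquadratic fields of degree at least 16, real or not, for the successive
# prime twists of the elliptic curves with a rational point of order two

**(1) The root numbers.** Let `K` be ANY number field which is generated by square roots of rational numbers
(that is, `K/ℚ` is Galois with a group of exponent two), of degree at least `16`: `K` may be real or complex,
and ramified at any primes, `2` and the bad primes of `E` included. Then for EVERY elliptic curve `E` over `ℚ`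
the root number `w(E/K) = ∏_v w(E/K_v)` is `1`.

**(2) The ranks.** Let `K = ℚ(√d : d ∈ S)` be any multiquadratic number field (`S` a finite set of nonzero
integers, positive or negative), and `E : y² = x³ + a x² + b x` with integers `a`, `b` such that neither `b`
nor `c = a² - 4 b` is a square and such that the Selmer ranks (descent by isogenies of degree two) of the
`2 ^ |S|` twists of `E` by the products of the elements of `S` are `0`. `E_N` is the quadratic twist of `E` by
`N`. Let `D` be ANY (fixed) product of different split and inert primes. We twist `E_D` successively by primes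
`p_k, …, p_0` in given residue classes of split or inert primes, the last one inert (`N = D p_k ⋯ p_0`), and
take means over the primes `p_0` up to `X`, `X → ∞`, then over `p_1`, …, at last over `p_k`. Let `P` be the law
of the Markov chain `r → r - 1` with probability `1 - 2 ^ -r`, `r → r` and `r → r + 1` with probability
`2 ^ -(r + 1)`, after `t` steps, `t` the number of the split primes among `p_1, …, p_k`; the first law is that
of the corank of the explicit matrix of `D` plus a random diagonal matrix over the field with two elements.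

The iterated density of the `N`, for which the parity conjecture `(-1) ^ rk E_N(F) = w(E_N/F)` is true over ALL
the subfields `F` of `K` with `[F : ℚ] ≥ 16` at the same time, the rank being `0` and the root number `1`,
and all the twists of `E_N` by the products of the elements of `S` have finitely many rational points and
`Ш[2^∞] = 0`, exists and is `P(0)`, for every `D`. It is at least `2 ^ -(n + t)`, `n` the number of the split
primes of `D`, and differs from `c_0 = ∏ (1 - 2^{-(2i+1)}) = 0.4194…` by at most
`∏_{1 ≤ i ≤ n} (2 ^ i - 1) / 2 ^ t`, so it tends to `c_0` if the classes of split primes are infinitely many: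
these bounds do not depend on `K` and its degree.

**(3)** For `E : y² = x³ + 7 x² + 7 x` and every `n` there are sets `S` of `n` primes with all the `2 ^ n` Selmer
ranks `0`, that is, fields `K` of degree `2 ^ n` for which (2) applies.

The local root numbers `w(E/K_v)` are signs; they are `1` if `E` has good reduction at `v` and `-1` if `E` has
split multiplicative reduction at `v`; and since `E` is defined over `ℚ` they are the same for conjugate
primes, for which the completions are isomorphic. These properties are all that we use, that is, we prove the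
equality for every function `w` with these properties (definitions of helper922, as in the starting file
`ParityOverTwoExtensions`).

The proof of (1): by the Kummer theory of `ℚ_p` two different products of the square roots of independent
integers differ by a square of `ℚ_p`, if their number is more than that of the square classes of `ℚ_p` (`4`, and `8`
for `p = 2`), so no prime of `K` is stable under the Galois group (`U150/XR`; for two primes that are
squares modulo each other this is due to helper80, `U80/PT`). In the product only the stable primes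
matter (helper385), the number of the infinite places is even (helper897).

Authors: helper150 (this file, `U150/XG`, `U150/XR`), helper922, helper385, helper897, helper878 (root numbers,
project PX), helper80 (`U80/PT`, and the example, `U80/GT`), helper79 (ranks over multiquadratic fields,
`U79/MO`, `U79/TF`, definitions in `MP_81dc49_nt.RanksOverMultiquadraticFields`), helper687 (the Markov
chain, `U687/Q2`), helper115 and the projects GD and GE (the descent).
-/

set_option autoImplicit false

open scoped Classical ENNReal

open IsDedekindDomain NumberField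

namespace Pool.Agent.Results.MP_02f36d_nt.PrimeTwistsAllMultiquadratic

open Filter
open Pool.Agent.TH841.NF.D (rk)
open Pool.Agent.N922.PX (curve LocalRootNumbers rootNumber)
open Pool.Agent.Results.MP_6073f3_nt.SuccessivePrimeTwists (Res Member Given Density split splitSteps
  chain c)
open Pool.Agent.Results.MP_81dc49_nt.RanksOverMultiquadraticFields (E s R₀ twist TrivialTwo)
open Pool.Agent.Results.MP_7cad78_nt.PrimeTwistsMultiquadratic (A B Generates)

/-- `K` is generated by square roots of rational numbers: it is Galois over `ℚ` with a group of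
exponent two -/
def Multiquadratic (K : Type) [Field K] [NumberField K] : Prop :=
  IsGalois ℚ K ∧ ∀ (σ : K ≃ₐ[ℚ] K) (x : K), σ (σ x) = x

/-- the parity conjecture holds for `E_N` over `K`, with rank `0` and root number `1`: for every system
of local root numbers (such systems exist, and only finitely many of the numbers are not `1`)
`(-1) ^ rank = w(E_N / K)` -/
structure ParityHolds (a b : ℤ) (N : ℕ) (K : Type) [Field K] [NumberField K] : Prop where
  rank : rk (E a b N K) = 0
  exist : ∃ w, LocalRootNumbers K (E a b N ℚ) w
  almost : ∀ w, LocalRootNumbers K (E a b N ℚ) w → {v | w v ≠ 1}.Finite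
  one : ∀ w, LocalRootNumbers K (E a b N ℚ) w → rootNumber K w = 1
  parity : ∀ w, LocalRootNumbers K (E a b N ℚ) w → (-1) ^ rk (E a b N K) = rootNumber K w

/-- the parity conjecture holds for `E_N` over all the subfields of `K` of degree at least `16` -/
def AllSubfields (a b : ℤ) (K : Type) [Field K] [NumberField K] (N : ℕ) : Prop :=
  ∀ F : IntermediateField ℚ K, 16 ≤ Module.finrank ℚ F → ParityHolds a b N F

/-- **Theorem.** -/
theorem result :
    (∀ (K : Type) [Field K] [NumberField K], Multiquadratic K → 16 ≤ Module.finrank ℚ K →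
      ∀ A₄ A₆ : ℤ, 4 * A₄ ^ 3 + 27 * A₆ ^ 2 ≠ 0 →
        (∃ w, LocalRootNumbers K (curve (A₄, A₆)) w) ∧
        ∀ w, LocalRootNumbers K (curve (A₄, A₆)) w → {v | w v ≠ 1}.Finite ∧ rootNumber K w = 1) ∧
    (∀ S : Finset ℤ, (∀ d ∈ S, d ≠ 0) → ∀ a b : ℤ, ¬ IsSquare b → ¬ IsSquare (a ^ 2 - 4 * b) →
      R₀ a b S = 0 → ∀ q : ℕ → ℕ, Given (A a S) (B b S) q →
      (∀ (k D : ℕ), Member (A a S) (B b S) D →
        Res (A a S) (B b S) (D * ∏ i ∈ Finset.range (k + 1), q i) →
        (∀ (K : Type) [Field K] [NumberField K] (r : ℤ → K), Generates S K r →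
          Density (A a S) (B b S) q (fun N => AllSubfields a b K N ∧
            ∀ T ⊆ S, TrivialTwo (twist a b (∏ d ∈ T, d) N)) k D (chain (A a S) (B b S) q k D 0)) ∧
        (1 / 2 : ℝ) ^ ((split (A a S) (B b S) D).card + splitSteps (A a S) (B b S) q k) ≤
          chain (A a S) (B b S) q k D 0 ∧
        |chain (A a S) (B b S) q k D 0 - c 0| ≤
          (∏ i ∈ Finset.range (split (A a S) (B b S) D).card, ((2 : ℝ) ^ (i + 1) - 1)) /
            2 ^ splitSteps (A a S) (B b S) q k) ∧
      ((∃ᶠ i in atTop, Res (A a S) (B b S) (q i)) → ∀ D : ℕ,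
        Tendsto (fun k => chain (A a S) (B b S) q k D 0) atTop (nhds (c 0)))) ∧
    0.4194 < c 0 ∧ c 0 < 0.4195 ∧
    (¬ IsSquare (7 : ℤ) ∧ ¬ IsSquare ((7 : ℤ) ^ 2 - 4 * 7) ∧
      ∀ n : ℕ, ∃ S : Finset ℤ, S.card = n ∧ (∀ d ∈ S, 0 < d ∧ Prime d) ∧ R₀ 7 7 S = 0) := by
  have hcp : c = Pool.Agent.U687.Q2.prob :=
    funext Pool.Agent.Results.MP_6073f3_nt.SuccessivePrimeTwists.c_eq
  obtain ⟨-, -, -, l1, l2⟩ := Pool.Agent.U687.Q2.lim2_facts
  refine ⟨fun K _ _ hK h16 A₄ A₆ h0 => ⟨Pool.Agent.N922.PX.exists_local K _, fun w hw => ?_⟩,
    fun S hS a b hb hc hR0 q hq => ⟨fun k D hD hR => ?_, fun hF D => ?_⟩, ?_, ?_, ?_, ?_,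
    Pool.Agent.U150.XR.ex77⟩
  · have := hK.1
    obtain ⟨r, S, h1, h2⟩ := Pool.Agent.U150.XR.gen_of hK.2
    exact Pool.Agent.U150.XR.root_one (c := (A₄, A₆)) h1 h2 h16 h0 hw
  · obtain ⟨g1, -⟩ := Pool.Agent.Results.MP_7cad78_nt.PrimeTwistsMultiquadratic.result S hS a b hb hc q hq
    obtain ⟨-, -, g2, g3⟩ := g1 k D hD hR
    refine ⟨fun K _ _ r hr => ?_, g2, g3⟩
    have hM : (∏ d ∈ S, d) ≠ 0 := Finset.prod_ne_zero_iff.2 hS
    have hb' : ¬ IsSquare (B b S) := Pool.Agent.U150.XG.Mq.ns_b hb hM
    have hc' : ¬ IsSquare ((A a S) ^ 2 - 4 * B b S) := Pool.Agent.U150.XG.Mq.ns_c hc hM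
    have hb0 : b ≠ 0 := by
      rintro rfl
      exact hb ⟨0, by norm_num⟩
    have hc0 : a ^ 2 - 4 * b ≠ 0 := by
      intro h
      exact hc ⟨0, by rw [h]; norm_num⟩
    refine Pool.Agent.Results.MP_6073f3_nt.SuccessivePrimeTwists.dens_of hb' hc' hq _ 0
      (fun N hN => ?_) k hD hR
    obtain ⟨h1, h2, h3⟩ := Pool.Agent.U150.XG.Mq.bd (S := S) hb hc hS hN
    have h5 : Pool.Agent.U115.GE.cork (A a S) (B b S) N = Pool.Agent.U115.GE.cork a b N := h1
    have hN0 : N ≠ 0 := hN.1.ne_zero
    have hs0 : ∀ T ⊆ S, s (a * ∏ d ∈ T, d) (b * (∏ d ∈ T, d) ^ 2) = 0 := by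
      intro T hT
      unfold R₀ at hR0
      exact (Finset.sum_eq_zero_iff.1 hR0) T (Finset.mem_powerset.2 hT)
    rw [h5]
    constructor
    · rintro ⟨-, h⟩
      exact ((h2 ∅ (Finset.empty_subset S)).2 (hs0 ∅ (Finset.empty_subset S))).1
        (h ∅ (Finset.empty_subset S))
    · intro h
      refine ⟨fun F h16 => ?_, fun T hT => ((h2 T hT).2 (hs0 T hT)).2 h⟩
      have h4 := h3 K r hr.1 hr.2
      rw [h, hR0] at h4
      have h6 : rk (E a b N K) = 0 := Nat.eq_zero_of_le_zero h4
      have h7 : rk (E a b N F) = 0 := Pool.Agent.U150.XR.rk_zero hb0 hc0 hN0 F h6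
      have h8 := fun w hw => Pool.Agent.U150.XR.root_short hr.1 hr.2 F h16 hb0 hc0 hN0 (w := w) hw
      exact ⟨h7, Pool.Agent.N922.PX.exists_local F _, fun w hw => (h8 w hw).1,
        fun w hw => (h8 w hw).2, fun w hw => by rw [h7, pow_zero, (h8 w hw).2]⟩
  · have hM : (∏ d ∈ S, d) ≠ 0 := Finset.prod_ne_zero_iff.2 hS
    exact (Pool.Agent.Results.MP_6073f3_nt.SuccessivePrimeTwists.result (A a S) (B b S)
      (Pool.Agent.U150.XG.Mq.ns_b hb hM) (Pool.Agent.U150.XG.Mq.ns_c hc hM) q hq).2.1 hF D 0
  · rw [hcp, Pool.Agent.U687.Q2.prob_zero]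
    exact l1
  · rw [hcp, Pool.Agent.U687.Q2.prob_zero]
    exact l2
  · rintro ⟨x, hx⟩
    have h1 : x < 3 := by nlinarith
    have h2 : -3 < x := by nlinarith
    interval_cases x <;> omega
  · rintro ⟨x, hx⟩
    have h1 : x < 5 := by nlinarith
    have h2 : -5 < x := by nlinarith
    interval_cases x <;> omega

end Pool.Agent.Results.MP_02f36d_nt.PrimeTwistsAllMultiquadratic
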