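import Pool.Agent.U845.UP.Fin
import Pool.Agent.N922.PX.Ex

/-!
# The parity conjecture over infinitely many number fields at once, for a positive proportion of all
# elliptic curves over `ℚ`

Let `K / ℚ` be any Galois extension of degree `2 ^ n`, `n ≥ 1`, in which the prime `2` is unramified and not
inert.

Theorem. There are a finite set `S` of primes, all `1` modulo `8`, and `c > 0`, such that at least `c` times
the number of ALL elliptic curves `E : y ^ 2 = x ^ 3 + A x + B` over `ℚ`, ordered by height, have the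
following property. Let `C = C(E, S)` be the class of all the finite Galois extensions `M / ℚ` of 2-power
degree `> 1` in which `2` is unramified and not inert, in which all `q ∈ S` split completely and in which
only such primes `ℓ` are ramified modulo which `x ^ 3 + A x + B` has no zero. Then `K` is in `C`, the class
`C` is closed under composita, for a set of primes `ℓ` of positive lower density `ℚ(√ℓ)` is in `C`; and the
parity conjecture `(-1) ^ rk E(M) = w(E / M)` holds, unconditionally, over ALL `M ∈ C`. More precisely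
`E(M) = 0` and `w(E / M) = 1` for all of them.

The difference to `ParityOverTwoExtensions` (project PX of helper922, in the starting library), where the
field is given first and the set of curves depends on it, is the order of the quantifiers: here one set
of curves of positive density works for the infinitely many fields in `C`, of unbounded degrees (among
them all the composita of `K` with the `ℚ(√ℓ)`).

The local root numbers `w(E / M_v)` are signs; they are `1` if `E` has good reduction at `v` and `-1` if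
`E` has split multiplicative reduction at `v`; and since `E` is defined over `ℚ` they are the same for
conjugate primes, for which the completions are isomorphic. These properties are all that we use, that
is, we prove the equality for every function `w` with these properties, in particular for the local
root numbers defined by the local constants.

The proof. (1) `E(M) = 0` for all `M` in the class at once: this is the theorem of helper693 for
MP_775b3b_nt (`UniformOverTwoExtensions`, `U693/UN`), a uniform version of the descent of helper922; it gives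
twists by products `D` of primes in `S` of the curves `y ^ 2 = x ^ 3 + a x + b`, with `a`, `b` odd and
`4 a ^ 3 + 27 b ^ 2 > 0` squarefree. (2) For such curves the root number is calculated over each `M`
separately, as in project PX (`N922/PX`): the primes which are not stable under the Galois group do not
matter. A stable prime is not over `2` (it is not inert) and not over a prime divisor of `D` (they split
completely in `M`), the curve has good reduction at the primes over the ramified primes, which are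
arbitrary here, because the cubic polynomial has no zero there; therefore a stable prime with bad
reduction is over a prime divisor `q` of `N = 4 a ^ 3 + 27 b ^ 2`, inert in `M`, where the reduction is
split multiplicative, and quadratic reciprocity for the product of the symbols `(d / q)`, where `ℚ(√d)` is
the quadratic subfield of `M` if `M` is cyclic, gives the sign which belongs to the infinite places. (3) For
the quadratic fields we use Chebotarev's theorem for the splitting field of
`(x ^ 3 + A x + B) (x ^ 2 + 1) (x ^ 2 - 2) ∏ (x ^ 2 - Q)`, so that `ℓ` is `1` modulo `8` and `2` splits in `ℚ(√ℓ)`.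

helper845 (`U845/UP`); library: projects PQ, PV, PX (helper922 and the helpers named in
`ParityOverTwoExtensions`) and `U693/UN` (helper693).
-/

set_option autoImplicit false
set_option linter.all false

namespace Pool.Agent.Results.MP_02f36d_nt.UniformOverTwoExtensions

open Filter NumberField IsDedekindDomain
open scoped Classical

/-- The equation `y ^ 2 = x ^ 3 + A x + B` with integers `A`, `B` defines an elliptic curve, and
there is no prime `p` with `p ^ 4 ∣ A` and `p ^ 6 ∣ B`. Every elliptic curve over `ℚ` is isomorphic to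
exactly one of these. -/
structure IsMinimal (A B : ℤ) : Prop where
  elliptic : 4 * A ^ 3 + 27 * B ^ 2 ≠ 0
  minimal : ∀ p : ℕ, p.Prime → ¬ ((p : ℤ) ^ 4 ∣ A ∧ (p : ℤ) ^ 6 ∣ B)

/-- The height. -/
def height (p : ℤ × ℤ) : ℤ := max (4 * |p.1| ^ 3) (27 * p.2 ^ 2)

/-- The set of all elliptic curves over `ℚ` of height at most `X`. -/
def Curves (X : ℕ) : Set (ℤ × ℤ) := {p | IsMinimal p.1 p.2 ∧ height p ≤ X}

/-- The curve `y ^ 2 = x ^ 3 + A x + B` over `ℚ`, for `p = (A, B)`. -/
def curve (p : ℤ × ℤ) : WeierstrassCurve ℚ := ⟨0, 0, 0, (p.1 : ℚ), (p.2 : ℚ)⟩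

section defs

variable {F : Type} [Field F] [NumberField F]

/-- The coefficients of the equation are integral at the prime `v`. -/
structure IntegralAt (v : HeightOneSpectrum (𝓞 F)) (W : WeierstrassCurve F) : Prop where
  a₁ : v.valuation F W.a₁ ≤ 1
  a₂ : v.valuation F W.a₂ ≤ 1
  a₃ : v.valuation F W.a₃ ≤ 1
  a₄ : v.valuation F W.a₄ ≤ 1
  a₆ : v.valuation F W.a₆ ≤ 1

/-- Good reduction at `v`: there is a Weierstrass equation with coefficients integral at `v` whose
discriminant is a unit at `v`. -/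
def GoodReduction (v : HeightOneSpectrum (𝓞 F)) (W : WeierstrassCurve F) : Prop :=
  ∃ C : WeierstrassCurve.VariableChange F, IntegralAt v (C • W) ∧ v.valuation F (C • W).Δ = 1

/-- Split multiplicative reduction at `v`: there is a Weierstrass equation with coefficients
integral at `v` whose reduction has the singular point `(0, 0)` (`a₃`, `a₄`, `a₆` are zero modulo `v`),
which is a node (`b₂ = a₁ ^ 2 + 4 a₂` is a unit at `v`) with tangents `y = α x` defined over the residue
field (`α ^ 2 + a₁ α - a₂` is zero modulo `v`). -/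
def SplitMultiplicative (v : HeightOneSpectrum (𝓞 F)) (W : WeierstrassCurve F) : Prop :=
  ∃ C : WeierstrassCurve.VariableChange F, IntegralAt v (C • W) ∧
    v.valuation F (C • W).a₃ < 1 ∧ v.valuation F (C • W).a₄ < 1 ∧ v.valuation F (C • W).a₆ < 1 ∧
    v.valuation F (C • W).b₂ = 1 ∧
    ∃ α : F, v.valuation F α ≤ 1 ∧
      v.valuation F (α ^ 2 + (C • W).a₁ * α - (C • W).a₂) < 1

variable (F)

/-- The properties of the local root numbers `w(E / F_v)` at the primes `v` of `F`, for an elliptic
curve `E` over `ℚ`, which we use: they are signs, `1` for good reduction, `-1` for split multiplicative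
reduction, and the same for conjugate primes. -/
structure LocalRootNumbers (E : WeierstrassCurve ℚ) (w : HeightOneSpectrum (𝓞 F) → ℤ) :
    Prop where
  sign : ∀ v, w v = 1 ∨ w v = -1
  good : ∀ v, GoodReduction v (E.baseChange F) → w v = 1
  split : ∀ v, SplitMultiplicative v (E.baseChange F) → w v = -1
  conj : ∀ (σ : F ≃ₐ[ℚ] F) (v v' : HeightOneSpectrum (𝓞 F)),
    (∀ x : F, v'.valuation F x = v.valuation F (σ x)) → w v' = w v

/-- The global root number: the product of the local root numbers at all places; it is `-1` at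
every infinite place. -/
noncomputable def rootNumber (w : HeightOneSpectrum (𝓞 F) → ℤ) : ℤ :=
  (-1) ^ Nat.card (InfinitePlace F) * ∏ᶠ v, w v

/-- The group `E(F)`. -/
def Pts (p : ℤ × ℤ) : Type := ((curve p).baseChange F).toAffine.Point

noncomputable instance instPts (p : ℤ × ℤ) : AddCommGroup (Pts F p) :=
  (inferInstance : AddCommGroup ((curve p).baseChange F).toAffine.Point)

/-- The rank of `E(F)`. -/
noncomputable def rank (p : ℤ × ℤ) : ℕ := Module.finrank ℤ (Pts F p)

/-- The parity conjecture holds for `E` over `F`, with `E(F) = 0` and root number `1`: for every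
system of local root numbers (such systems exist, and there are only finitely many primes with
`w v ≠ 1`) `(-1) ^ rank = w(E / F)`. -/
structure ParityHolds (p : ℤ × ℤ) : Prop where
  zero : Subsingleton (Pts F p)
  exist : ∃ w, LocalRootNumbers F (curve p) w
  finite : ∀ w, LocalRootNumbers F (curve p) w → {v | w v ≠ 1}.Finite
  one : ∀ w, LocalRootNumbers F (curve p) w → rootNumber F w = 1
  parity : ∀ w, LocalRootNumbers F (curve p) w → (-1) ^ rank F p = rootNumber F w

end defs

/-- The class `C(E, S)` for `E : y ^ 2 = x ^ 3 + A x + B`, `p = (A, B)`: the number fields `M` which are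
Galois over `ℚ`, of degree a power `2 ^ n`, `n ≥ 1`, in which `2` is unramified (no prime ideal `𝔭` has
`2 ∈ 𝔭 ^ 2`) and not inert (the ideal `(2)` is not prime), in which all `q ∈ S` split completely (they are
unramified, and every integer of `M` is congruent to a rational integer modulo each prime over `q`)
and in which only such primes `ℓ` are ramified modulo which `x ^ 3 + A x + B` has no zero. -/
structure InClass (S : Finset ℕ) (p : ℤ × ℤ) (M : Type) [Field M] [NumberField M] : Prop where
  galois : IsGalois ℚ M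
  degree : ∃ n : ℕ, 1 ≤ n ∧ Module.finrank ℚ M = 2 ^ n
  two : ∀ 𝔭 : Ideal (𝓞 M), 𝔭.IsPrime → (2 : 𝓞 M) ∉ 𝔭 ^ 2
  inert : ¬ (Ideal.span {(2 : 𝓞 M)}).IsPrime
  split : ∀ q ∈ S, ∀ 𝔭 : Ideal (𝓞 M), 𝔭.IsPrime → (q : 𝓞 M) ∈ 𝔭 →
    (q : 𝓞 M) ∉ 𝔭 ^ 2 ∧ ∀ x : 𝓞 M, ∃ c : ℤ, x - (c : 𝓞 M) ∈ 𝔭
  ramified : ∀ ℓ : ℕ, ℓ.Prime → (∃ 𝔭 : Ideal (𝓞 M), 𝔭.IsPrime ∧ (ℓ : 𝓞 M) ∈ 𝔭 ^ 2) →
    ∀ z : ℤ, ¬ (ℓ : ℤ) ∣ z ^ 3 + p.1 * z + p.2

/-- Every number field which is generated by a square root of `ℓ` is in the class. -/
def HasQuadratic (S : Finset ℕ) (p : ℤ × ℤ) (ℓ : ℕ) : Prop :=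
  ∀ (M : Type) [Field M] [NumberField M] (r : M), r ^ 2 = (ℓ : M) →
    (∀ T : Subfield M, r ∈ T → T = ⊤) → InClass S p M

/-- The property of the curve `p`. -/
structure Good (K : Type) [Field K] [NumberField K] (S : Finset ℕ) (p : ℤ × ℤ) : Prop where
  /-- `K` is in the class. -/
  base : InClass S p K
  /-- The class is closed under composita. -/
  composita : ∀ (M₁ M₂ N : Type) [Field M₁] [NumberField M₁] [Field M₂] [NumberField M₂] [Field N]
    [NumberField N] [Algebra M₁ N] [Algebra M₂ N],
    (∀ T : Subfield N, (∀ x : M₁, algebraMap M₁ N x ∈ T) → (∀ x : M₂, algebraMap M₂ N x ∈ T) →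
      T = ⊤) → InClass S p M₁ → InClass S p M₂ → InClass S p N
  /-- A set of primes `ℓ` of positive lower density for which `ℚ(√ℓ)` is in the class. -/
  many : ∃ δ : ℝ, 0 < δ ∧ ∀ᶠ N : ℕ in atTop, δ * (Nat.primeCounting N : ℝ) ≤
    (((Finset.range (N + 1)).filter fun ℓ => ℓ.Prime ∧ HasQuadratic S p ℓ).card : ℝ)
  /-- The parity conjecture holds over all fields in the class. -/
  parity : ∀ (M : Type) [Field M] [NumberField M], InClass S p M → ParityHolds M p

section tr

variable {F : Type} [Field F] [NumberField F]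

theorem int_iff (v : HeightOneSpectrum (𝓞 F)) (W : WeierstrassCurve F) :
    IntegralAt v W ↔ Pool.Agent.N922.PX.IntegralAt v W :=
  ⟨fun h => ⟨h.1, h.2, h.3, h.4, h.5⟩, fun h => ⟨h.1, h.2, h.3, h.4, h.5⟩⟩

theorem good_iff (v : HeightOneSpectrum (𝓞 F)) (W : WeierstrassCurve F) :
    GoodReduction v W ↔ Pool.Agent.N922.PX.GoodReduction v W := by
  unfold GoodReduction Pool.Agent.N922.PX.GoodReduction
  simp only [int_iff]

theorem split_iff (v : HeightOneSpectrum (𝓞 F)) (W : WeierstrassCurve F) :
    SplitMultiplicative v W ↔ Pool.Agent.N922.PX.SplitMultiplicative v W := by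
  unfold SplitMultiplicative Pool.Agent.N922.PX.SplitMultiplicative
  simp only [int_iff]

theorem local_iff (p : ℤ × ℤ) (w : HeightOneSpectrum (𝓞 F) → ℤ) :
    LocalRootNumbers F (curve p) w ↔
      Pool.Agent.N922.PX.LocalRootNumbers F (Pool.Agent.N922.PX.curve p) w := by
  have e : curve p = Pool.Agent.N922.PX.curve p := rfl
  rw [e]
  constructor
  · rintro ⟨h1, h2, h3, h4⟩
    exact ⟨h1, fun v h => h2 v ((good_iff v _).2 h), fun v h => h3 v ((split_iff v _).2 h), h4⟩
  · rintro ⟨h1, h2, h3, h4⟩
    exact ⟨h1, fun v h => h2 v ((good_iff v _).1 h), fun v h => h3 v ((split_iff v _).1 h), h4⟩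

end tr

theorem crv_iff (X : ℕ) (p : ℤ × ℤ) : Pool.Agent.N922.PQ.Crv X p.1 p.2 ↔ p ∈ Curves X := by
  constructor
  · rintro ⟨h1, h2, h3, h4⟩
    exact ⟨⟨h1, h2⟩, max_le h3 h4⟩
  · rintro ⟨⟨h1, h2⟩, h3⟩
    exact ⟨h1, h2, (le_max_left _ _).trans h3, (le_max_right _ _).trans h3⟩

theorem nonempty {X : ℕ} (hX : 27 ≤ X) : ((1, 1) : ℤ × ℤ) ∈ Curves X := by
  refine ⟨⟨by norm_num, ?_⟩, ?_⟩
  · rintro p hp ⟨h, -⟩
    have h1 : ((p : ℤ)) ∣ 1 := (dvd_pow_self (p : ℤ) (by norm_num)).trans h
    have h2 : p ∣ 1 := by exact_mod_cast h1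
    exact hp.one_lt.ne' (Nat.dvd_one.1 h2)
  · have : height ((1, 1) : ℤ × ℤ) = 27 := by
      simp [height]
    rw [this]
    exact_mod_cast hX

theorem isPr_iff {q : ℕ} : Pool.Agent.N922.PQ.IsPr (q : ℤ) ↔ q.Prime := by
  constructor
  · intro h
    exact Nat.prime_iff_prime_int.2 h.2
  · intro h
    exact ⟨by exact_mod_cast h.pos, Nat.prime_iff_prime_int.1 h⟩

/-- The class in terms of the class of the library. -/
theorem class_iff {S : Finset ℤ} (hS : ∀ Q ∈ S, Pool.Agent.N922.PQ.IsPr Q) (p : ℤ × ℤ) (M : Type)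
    [Field M] [NumberField M] : InClass (S.image Int.toNat) p M ↔
      Pool.Agent.U693.UN.InClass S p.1 p.2 M ∧ 1 < Module.finrank ℚ M ∧
        ¬ (Ideal.span {(2 : 𝓞 M)}).IsPrime := by
  have hto : ∀ P : ℤ, Pool.Agent.N922.PQ.IsPr P → ((P.toNat : ℕ) : ℤ) = P := fun P hP =>
    Int.toNat_of_nonneg hP.1.le
  constructor
  · intro h
    obtain ⟨n, hn1, hn⟩ := h.degree
    refine ⟨⟨h.galois, ⟨n, hn⟩, h.two, fun Q hQ 𝔭 h𝔭 hm => ?_, fun P hP hex => ?_⟩, ?_, h.inert⟩
    · have h1 := h.split Q.toNat (Finset.mem_image_of_mem _ hQ) 𝔭 h𝔭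
      have e : ((Q.toNat : ℕ) : 𝓞 M) = (Q : 𝓞 M) := by
        rw [← Int.cast_natCast, hto Q (hS Q hQ)]
      rw [e] at h1
      exact h1 hm
    · have h1 := h.ramified P.toNat (isPr_iff.1 (by rw [hto P hP]; exact hP))
      have e : ((P.toNat : ℕ) : 𝓞 M) = (P : 𝓞 M) := by
        rw [← Int.cast_natCast, hto P hP]
      rw [e, hto P hP] at h1
      exact h1 hex
    · rw [hn]
      exact Nat.one_lt_two_pow (by omega)
  · rintro ⟨h, hd, hi⟩
    obtain ⟨n, hn⟩ := h.degree
    refine ⟨h.galois, ⟨n, ?_, hn⟩, h.two, hi, fun q hq 𝔭 h𝔭 hm => ?_, fun ℓ hℓ hex => ?_⟩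
    · rcases Nat.eq_zero_or_pos n with rfl | h
      · rw [hn, pow_zero] at hd
        omega
      · exact h
    · obtain ⟨Q, hQ, rfl⟩ := Finset.mem_image.1 hq
      have h1 := h.split Q hQ 𝔭 h𝔭
      have e : ((Q.toNat : ℕ) : 𝓞 M) = (Q : 𝓞 M) := by
        rw [← Int.cast_natCast, hto Q (hS Q hQ)]
      rw [e] at hm ⊢
      exact h1 hm
    · have h1 := h.ram (ℓ : ℤ) (isPr_iff.2 hℓ)
      rw [Int.cast_natCast] at h1
      exact h1 hex

/-- The degree of a field with the square root of a prime number is not one. -/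
theorem quad_deg {M : Type} [Field M] [NumberField M] {ℓ : ℕ} (hℓ : ℓ.Prime) {r : M}
    (hr : r ^ 2 = (ℓ : M)) : 1 < Module.finrank ℚ M := by
  by_contra h
  have h1 : Module.finrank ℚ M = 1 := by
    have : 0 < Module.finrank ℚ M := Module.finrank_pos
    omega
  have h2 : (⊥ : Subalgebra ℚ M) = ⊤ := Subalgebra.bot_eq_top_of_finrank_eq_one h1
  have h3 : r ∈ (⊥ : Subalgebra ℚ M) := by
    rw [h2]
    exact Algebra.mem_top
  obtain ⟨q, hq⟩ := Algebra.mem_bot.1 h3
  have h4 : (q ^ 2 : ℚ) = (ℓ : ℚ) := by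
    apply (algebraMap ℚ M).injective
    rw [map_pow, hq, hr, map_natCast]
  have h5 : Irrational (√(ℓ : ℝ)) := hℓ.irrational_sqrt
  apply h5
  refine ⟨|q|, ?_⟩
  have h6 : ((q : ℝ)) ^ 2 = (ℓ : ℝ) := by exact_mod_cast h4
  rw [← h6, Real.sqrt_sq_eq_abs]
  simp

/-- Let `K / ℚ` be a Galois extension of degree `2 ^ n`, `n ≥ 1`, in which `2` is unramified
(that is, no prime ideal `𝔭` of `K` has `2 ∈ 𝔭 ^ 2`) and not inert (that is, the ideal `(2)` is not
prime). There are a finite set `S` of primes, all `1` modulo `8`, and `c > 0` such that for all large `X` at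
least `c` times the number of all elliptic curves `E` over `ℚ` of height at most `X` have the property
`Good K S`: `K` is in the class `C(E, S)`, the class is closed under composita and contains `ℚ(√ℓ)` for a
set of primes `ℓ` of positive lower density, and `E` satisfies the parity conjecture over ALL the fields
`M` in the class, `(-1) ^ rk E(M) = w(E / M)`, with `E(M) = 0` and `w(E / M) = 1`. -/
theorem result (K : Type) [Field K] [NumberField K] [IsGalois ℚ K] (n : ℕ) (h1 : 1 ≤ n)
    (hn : Module.finrank ℚ K = 2 ^ n)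
    (h2 : ∀ 𝔭 : Ideal (𝓞 K), 𝔭.IsPrime → (2 : 𝓞 K) ∉ 𝔭 ^ 2)
    (h3 : ¬ (Ideal.span {(2 : 𝓞 K)}).IsPrime) :
    (∀ X : ℕ, (Curves X).Finite) ∧
    ∃ S : Finset ℕ, (∀ q ∈ S, q.Prime ∧ q % 8 = 1) ∧ ∃ c : ℝ, 0 < c ∧ ∀ᶠ X : ℕ in atTop,
      0 < (Curves X).ncard ∧
      c * ((Curves X).ncard : ℝ) ≤ (({p ∈ Curves X | Good K S p}).ncard : ℝ) := by
  have hset : ∀ X : ℕ, Curves X = {p : ℤ × ℤ | Pool.Agent.N922.PQ.Crv X p.1 p.2} := by
    intro X
    ext p
    exact (crv_iff X p).symm
  have hfin : ∀ X : ℕ, (Curves X).Finite := fun X => by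
    rw [hset]
    exact Pool.Agent.N922.PQ.crv_fin X
  refine ⟨hfin, ?_⟩
  obtain ⟨S, hS, c, hc, X₀, h⟩ := Pool.Agent.U845.UP.finalP K hn h2
  have hSp : ∀ Q ∈ S, Pool.Agent.N922.PQ.IsPr Q := fun Q hQ => (hS Q hQ).1
  refine ⟨S.image Int.toNat, ?_, c, hc, ?_⟩
  · intro q hq
    obtain ⟨Q, hQ, rfl⟩ := Finset.mem_image.1 hq
    obtain ⟨h3, h4⟩ := hS Q hQ
    have e : ((Q.toNat : ℕ) : ℤ) = Q := Int.toNat_of_nonneg h3.1.le
    refine ⟨isPr_iff.1 (by rw [e]; exact h3), by omega⟩
  filter_upwards [eventually_ge_atTop (max X₀ 27)] with X hX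
  refine ⟨(Set.ncard_pos (hfin X)).2 ⟨_, nonempty ((le_max_right _ _).trans hX)⟩, ?_⟩
  have h4 := (h X ((le_max_left _ _).trans hX)).2
  rw [← hset] at h4
  refine h4.trans ?_
  have hdK : 1 < Module.finrank ℚ K := by
    rw [hn]
    exact Nat.one_lt_two_pow (by omega)
  have h5 : {p : ℤ × ℤ | Pool.Agent.N922.PQ.Crv X p.1 p.2 ∧
      (Pool.Agent.U693.UN.InClass S p.1 p.2 K ∧
        (∀ z : ℤ, ¬ (2 : ℤ) ∣ z ^ 3 + p.1 * z + p.2) ∧
        ∀ (M : Type) [Field M] [NumberField M], Pool.Agent.U693.UN.InClass S p.1 p.2 M →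
          Pool.Agent.N922.PQ.GoodV (M := M) (𝓞 M) p ∧ (1 < Module.finrank ℚ M →
            ¬ (Ideal.span {(2 : 𝓞 M)}).IsPrime → ∀ w : HeightOneSpectrum (𝓞 M) → ℤ,
              Pool.Agent.N922.PX.LocalRootNumbers M (Pool.Agent.N922.PX.curve p) w →
                Pool.Agent.N922.PX.rootNumber M w = 1))} ⊆
        {p ∈ Curves X | Good K (S.image Int.toNat) p} := by
    rintro p ⟨hp, hK, hnz, hgood⟩
    have hpC := (crv_iff X p).1 hp
    refine ⟨hpC, ?_⟩
    refine ⟨(class_iff hSp p K).2 ⟨hK, hdK, h3⟩, ?_, ?_, ?_⟩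
    · intro M₁ M₂ N _ _ _ _ _ _ _ _ hg h₁ h₂
      obtain ⟨h₁', hd₁, hi₁⟩ := (class_iff hSp p M₁).1 h₁
      obtain ⟨h₂', hd₂, hi₂⟩ := (class_iff hSp p M₂).1 h₂
      haveI := h₁'.galois
      haveI := h₂'.galois
      refine (class_iff hSp p N).2 ⟨Pool.Agent.U693.UN.InClass.comp hSp hg h₁' h₂', ?_,
        Pool.Agent.U845.UP.not_inert_comp hi₁⟩
      have e : Module.finrank ℚ M₁ ≤ Module.finrank ℚ N :=
        LinearMap.finrank_le_finrank_of_injective
          (f := ((algebraMap M₁ N).toRatAlgHom).toLinearMap) (algebraMap M₁ N).injective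
      omega
    · obtain ⟨δ, hδ, hev⟩ := Pool.Agent.U693.UN.dens (insert 2 S) (fun Q hQ => by
        rcases Finset.mem_insert.1 hQ with rfl | hQ
        · norm_num
        · exact (hSp Q hQ).2.ne_zero) hnz
      refine ⟨δ, hδ, ?_⟩
      filter_upwards [hev] with N hN
      refine hN.trans ?_
      have hsub : ((Finset.range (N + 1)).filter fun ℓ => ℓ.Prime ∧
          Pool.Agent.U693.UN.Tp p.1 p.2 (insert 2 S) ℓ) ⊆
            ((Finset.range (N + 1)).filter fun ℓ => ℓ.Prime ∧
              HasQuadratic (S.image Int.toNat) p ℓ) := by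
        intro ℓ hℓ
        rw [Finset.mem_filter] at hℓ ⊢
        obtain ⟨hT, h8⟩ := Pool.Agent.U845.UP.tp_insert hℓ.2.1 hℓ.2.2
        have hq := Pool.Agent.U693.UN.quad_of_Tp hS hℓ.2.1 hT
        refine ⟨hℓ.1, hℓ.2.1, ?_⟩
        intro M _ _ r hr hgen
        exact (class_iff hSp p M).2 ⟨hq M r (by rw [hr, Int.cast_natCast]) hgen,
          quad_deg hℓ.2.1 hr, Pool.Agent.U845.UP.quad_not_inert hℓ.2.1 h8 hr⟩
      exact_mod_cast Finset.card_le_card hsub
    · intro M _ _ hM
      obtain ⟨hM', hd, hi⟩ := (class_iff hSp p M).1 hM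
      obtain ⟨⟨-, hpt, -⟩, hw⟩ := hgood M hM'
      have e : (Pool.Agent.N874.PP.sW (p.1 : M) (p.2 : M)).baseChange M =
          (curve p).baseChange M := by
        apply WeierstrassCurve.ext <;>
          simp [Pool.Agent.N874.PP.sW, curve, WeierstrassCurve.baseChange]
      have key : ∀ W : WeierstrassCurve M,
          (Pool.Agent.N874.PP.sW (p.1 : M) (p.2 : M)).baseChange M = W →
          Subsingleton W.toAffine.Point := by
        rintro W rfl
        exact hpt
      have k1 : Subsingleton (Pts M p) := key _ e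
      have k2 : rank M p = 0 := Module.finrank_zero_of_subsingleton
      have k3 : ∀ w, LocalRootNumbers M (curve p) w → rootNumber M w = 1 := fun w h6 =>
        hw hd hi w ((local_iff p w).1 h6)
      have k4 : ∀ w, LocalRootNumbers M (curve p) w → {v | w v ≠ 1}.Finite := by
        intro w h6
        have hc : (2 * (4 * p.1 ^ 3 + 27 * p.2 ^ 2) : ℤ) ≠ 0 :=
          mul_ne_zero two_ne_zero hpC.1.elliptic
        obtain ⟨r1, r2, -⟩ := Pool.Agent.N878.PX.t_rd M
        refine (r2 _ hc).subset fun v hv h7 => hv ?_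
        exact h6.good v ((good_iff v _).2 (r1 p v h7))
      obtain ⟨w, hw'⟩ := Pool.Agent.N922.PX.exists_local M (Pool.Agent.N922.PX.curve p)
      refine ⟨k1, ⟨w, (local_iff p w).2 hw'⟩, k4, k3, fun w h6 => ?_⟩
      rw [k2, pow_zero, k3 w h6]
  exact Nat.cast_le.2 (Set.ncard_le_ncard h5 ((hfin X).subset fun p hp => hp.1))

end Pool.Agent.Results.MP_02f36d_nt.UniformOverTwoExtensions
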